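import Mathlib
import Pool.Prelude.Def_F_c31e40fa
import Pool.Agent.Run7.h275.EJ10

set_option autoImplicit false

open Filter Topology N62a1eb23

namespace Pool.Agent.Results.MP_c6f924_an.EnergyJump

open Pool.Agent.H713R2

/-- The coefficients `s m`, `m ≥ 0`, of the nonpositive powers in the Laurent series of `S ∘ ψ` on
`‖z‖ > 1` (`R` collects the positive powers; the value of `s 0` depends on the choice of the
constant term of `R` and plays no role below). -/
def IsTail (ψ : ℂ → ℂ) (S R : Polynomial ℂ) (s : ℕ → ℂ) : Prop :=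
  ∀ z : ℂ, 1 < ‖z‖ → HasSum (fun m : ℕ => s m / z ^ m) (S.eval (ψ z) - R.eval z)

/-- The energy jump at `N` in the window of length `K`: the truncated discrete Hilbert transform
at `N` of the sequence `m ^ 2 * ‖s m‖ ^ 2`. -/
noncomputable def jump (s : ℕ → ℂ) (N K : ℕ) : ℝ :=
  ∑ k ∈ Finset.Icc 1 K, ((((N - k : ℕ) : ℝ) * ‖s (N - k)‖) ^ 2 -
    (((N + k : ℕ) : ℝ) * ‖s (N + k)‖) ^ 2) / (k : ℝ)

/-- The `(n + 1)`-st point of the critical orbit of `z ^ 2 + c`, a polynomial of degree `2 ^ n`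
in `c`. -/
def crit (n : ℕ) (c : ℂ) : ℂ := (fun z => z ^ 2 + c)^[n + 1] 0

/-- For the exterior conformal map `ψ` of the Mandelbrot set `M` and every polynomial `S`, the
energy jump of the Laurent coefficients of `S ∘ ψ` at `2 ^ n` is, in every window of relative
length `δ`, equal to the mean of `|crit n|² |S'|²` over `M` (with respect to area divided by `π`)
up to `o(1)`. For `S = X` this mean is at least `5 / 96`. -/
theorem result :
    (∃ ψ : ℂ → ℂ, IsExteriorMap mandelbrotSet ψ) ∧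
    (∀ ψ : ℂ → ℂ, IsExteriorMap mandelbrotSet ψ →
      ∀ (S R : Polynomial ℂ) (s : ℕ → ℂ), IsTail ψ S R s → ∀ δ : ℝ, 0 < δ → δ < 1 →
      Tendsto (fun n : ℕ => jump s (2 ^ n) ⌊δ * 2 ^ n⌋₊ -
        1 / Real.pi * ∫ c in mandelbrotSet, ‖crit n c‖ ^ 2 *
          ‖(Polynomial.derivative S).eval c‖ ^ 2) atTop (𝓝 0)) ∧
    ∀ n : ℕ, 1 ≤ n → 5 / 96 ≤ 1 / Real.pi * ∫ c in mandelbrotSet, ‖crit n c‖ ^ 2 := by
  obtain ⟨β, hβ⟩ := exists_beta (d := 2) le_rfl
  refine ⟨⟨_, exteriorMap_of_beta hβ⟩, ?_, ?_⟩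
  · intro ψ hψ S R s hs δ hδ hδ1
    have h := Run7.h275.EJ.energy_jump (d := 2) le_rfl hψ (S := S) (R := R) (s := s) hs
      (a := 1) le_rfl (by norm_num) hδ hδ1
    simp only [one_mul, Nat.cast_ofNat] at h
    exact h
  · intro n hn
    have h := Run7.h275.EJ.II_lower (d := 2) le_rfl (r := 1 / 2) (by norm_num) (by norm_num) hn 1
    have e : Run7.h275.EJ.II 2 Polynomial.X 1 n =
        1 / Real.pi * ∫ c in mandelbrotSet, ‖crit n c‖ ^ 2 := by
      unfold Run7.h275.EJ.II
      simp only [Polynomial.derivative_X, Polynomial.eval_one, norm_one, one_pow, mul_one]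
      rfl
    rw [← e]
    refine le_trans (le_of_eq ?_) h
    norm_num

end Pool.Agent.Results.MP_c6f924_an.EnergyJump
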