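import Mathlib
import Pool.Prelude.Def_F_c31e40fa
import Pool.Agent.Run7.h495.HM.A9

set_option autoImplicit false

open Filter Topology Set Metric MeasureTheory Complex N62a1eb23

namespace Pool.Agent.Results.MP_c6f924_an.LocalModuli

open Pool.Agent.H713R2

/-- The map `z ↦ z ^ 2 + c`. -/
def f (c : ℂ) : ℂ → ℂ := fun z => z ^ 2 + c

/-- The modulus of the derivative of the `n`-th iterate at the point `f^m (0)` of the critical
orbit. -/
noncomputable def D (c : ℂ) (m n : ℕ) : ℝ := ‖deriv ((f c)^[n]) ((f c)^[m] 0)‖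

/-- The angles `t ∈ (0, 2π]` of the external rays landing at distance less than `r` from `c₀`. -/
def angles (ψ : ℂ → ℂ) (c₀ : ℂ) (r : ℝ) : Set ℝ :=
  {t | t ∈ Ioc 0 (2 * Real.pi) ∧ ∃ ζ ∈ ball c₀ r,
    Tendsto (fun ρ : ℝ => ψ (ρ * exp (t * I))) (𝓝[>] 1) (𝓝 ζ)}

/-- The harmonic measure (from infinity) of the disc of radius `r`, up to the factor `2π`. -/
noncomputable def harm (ψ : ℂ → ℂ) (c₀ : ℂ) (r : ℝ) : ℝ := (volume (angles ψ c₀ r)).toReal

/-- Near `c₀` the escape rate `‖w‖ - 1` at `ψ w` and the harmonic measure of the disc of radius `r`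
about `c₀` are at most `η`. If `ψ` has a continuous extension `F` to the unit circle (this is local
connectivity of the Mandelbrot set) and `F ζ = c₀`, then the image under `F` of every arc of radius
`δ ≤ 1` about `ζ` contains a point at distance at least `ω δ` from `c₀`. -/
def Small (ψ : ℂ → ℂ) (c₀ : ℂ) (η ω : ℝ → ℝ) : Prop :=
  (∀ w : ℂ, 1 < ‖w‖ → ‖w‖ ≤ 2 → ‖w‖ - 1 ≤ η ‖ψ w - c₀‖) ∧
  (∀ r : ℝ, 0 < r → harm ψ c₀ r ≤ η r) ∧
  ∀ F : ℂ → ℂ, ContinuousOn F {w : ℂ | 1 ≤ ‖w‖} → (∀ w : ℂ, 1 < ‖w‖ → F w = ψ w) →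
    ∀ ζ : ℂ, ‖ζ‖ = 1 → F ζ = c₀ → ∀ δ : ℝ, 0 < δ → δ ≤ 1 →
      ∃ ξ : ℂ, ‖ξ‖ = 1 ∧ ‖ξ - ζ‖ ≤ δ ∧ ω δ ≤ ‖F ξ - F ζ‖

/-- **The local moduli of the exterior map of the Mandelbrot set**. The exterior
map exists, and a continuous extension of it takes every boundary parameter as a value on the
circle. Let `c₀` be any parameter of the Mandelbrot set.

(1) If the derivatives of the iterates along the critical orbit are `O(L ^ n)` uniformly (for which
`|(f^N)'(f^m (0))| ≤ L ^ N` for one `N` and all large `m` suffices), then the escape rate and the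
harmonic measure of discs about `c₀` are `O(r ^ (log 2 / log L))`, and the loop moves at least
`δ ^ (log L / log 2) / K` on arcs of radius `δ`.

(2) If these derivatives are bounded, in particular if `c₀` is parabolic (`f^(N k) (0)` converges to
a fixed point of `f^N` of multiplier one), then the escape rate and the harmonic measure are at most
`K exp (- A / √r)`, and the loop moves at least `(A / log (K / δ)) ^ 2`.

(3) At the Misiurewicz parameters (the critical point is strictly preperiodic, onto a cycle with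
multiplier of modulus `μ` for the period `p`) the power law with exponent `s = p log 2 / log μ` is
sharp: the maximal escape rate and the harmonic measure of the disc of radius `r` are between
`r ^ s / K` and `K r ^ s`, and the loop moves at least `δ ^ (1 / s) / K`. -/
theorem result :
    (∃ ψ : ℂ → ℂ, IsExteriorMap mandelbrotSet ψ) ∧
    (∀ ψ : ℂ → ℂ, IsExteriorMap mandelbrotSet ψ → ∀ F : ℂ → ℂ,
      ContinuousOn F {w : ℂ | 1 ≤ ‖w‖} → (∀ w : ℂ, 1 < ‖w‖ → F w = ψ w) →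
        ∀ c₀ ∈ frontier mandelbrotSet, ∃ ζ : ℂ, ‖ζ‖ = 1 ∧ F ζ = c₀) ∧
    ∀ c₀ ∈ mandelbrotSet,
      (∀ L : ℝ, 1 < L → ((∃ C : ℝ, ∀ m n, D c₀ m n ≤ C * L ^ n) ∨
          ∃ N : ℕ, 1 ≤ N ∧ ∀ᶠ m in atTop, D c₀ m N ≤ L ^ N) →
        ∃ K : ℝ, 0 < K ∧ ∀ ψ : ℂ → ℂ, IsExteriorMap mandelbrotSet ψ →
          Small ψ c₀ (fun r => K * r ^ (Real.log 2 / Real.log L))
            (fun δ => δ ^ (Real.log L / Real.log 2) / K)) ∧
      (((∃ C : ℝ, ∀ m n, D c₀ m n ≤ C) ∨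
          ∃ (N : ℕ) (z₀ : ℂ), 1 ≤ N ∧ (f c₀)^[N] z₀ = z₀ ∧ deriv ((f c₀)^[N]) z₀ = 1 ∧
            Tendsto (fun k : ℕ => (f c₀)^[N * k] 0) atTop (𝓝 z₀)) →
        ∃ K A : ℝ, 1 < K ∧ 0 < A ∧ ∀ ψ : ℂ → ℂ, IsExteriorMap mandelbrotSet ψ →
          Small ψ c₀ (fun r => K * Real.exp (-(A / √r))) (fun δ => (A / Real.log (K / δ)) ^ 2)) ∧
      (∀ l p : ℕ, 1 ≤ p → (f c₀)^[l + p] 0 = (f c₀)^[l] 0 →
          (∀ n : ℕ, 1 ≤ n → (f c₀)^[n] 0 ≠ 0) →
        1 < D c₀ l p ∧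
        ∃ K : ℝ, 0 < K ∧ ∀ ψ : ℂ → ℂ, IsExteriorMap mandelbrotSet ψ →
          ∀ s : ℝ, s = p * Real.log 2 / Real.log (D c₀ l p) →
            Small ψ c₀ (fun r => K * r ^ s) (fun δ => δ ^ (1 / s) / K) ∧
            ∀ r : ℝ, 0 < r → r ≤ 1 →
              (∃ w : ℂ, 1 < ‖w‖ ∧ ‖ψ w - c₀‖ ≤ r ∧ r ^ s / K ≤ ‖w‖ - 1) ∧
              r ^ s / K ≤ harm ψ c₀ r) := by
  have hM : mandelbrotSet = multibrotSet 2 := rfl
  obtain ⟨β, hβ⟩ := exists_beta (d := 2) le_rfl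
  refine ⟨⟨_, exteriorMap_of_beta hβ⟩, ?_, ?_⟩
  · intro ψ hψ F hF hE c₀ hc₀
    rw [frontier_eq_closure_inter_closure] at hc₀
    have h1 : c₀ ∈ multibrotSet 2 := by
      have h2 := hc₀.1
      rwa [hM, (Pool.Agent.H712R2.isCompact_multibrot (d := 2) le_rfl).isClosed.closure_eq] at h2
    exact Run7.h495.HM.exists_angle (d := 2) h1 hc₀.2 hψ hF hE
  · intro c₀ hc₀
    have h := Run7.h495.HM.main (d := 2) le_rfl hc₀
    push_cast at h
    exact h

end Pool.Agent.Results.MP_c6f924_an.LocalModuli
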