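import Mathlib
import Pool.Prelude.Def_F_c31e40fa
import Pool.Agent.Run7.h15.Tr.FC
import Pool.Agent.Run7.h15.Tr.GD

set_option autoImplicit false

open Filter Topology Set Metric MeasureTheory Complex N62a1eb23

namespace Pool.Agent.Results.MP_c6f924_an.ParabolicLaws

open Pool.Agent.H713R2

/-- The map `z ↦ z ^ 2 + c`. -/
def f (c : ℂ) : ℂ → ℂ := fun z => z ^ 2 + c

/-- The supremum of Green's function of the complement over the points at distance at most `r` from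
`c₀`, where `ψ` is the exterior map. -/
noncomputable def greenSup (ψ : ℂ → ℂ) (c₀ : ℂ) (r : ℝ) : ℝ :=
  sSup {x | ∃ w : ℂ, 1 < ‖w‖ ∧ ‖ψ w - c₀‖ ≤ r ∧ Real.log ‖w‖ = x}

/-- The angles `t ∈ (0, 2π]` of the external rays landing at distance less than `r` from `c₀`. Its
measure is `2π` times the harmonic measure, from infinity, of the disc of radius `r` about `c₀`. -/
def angles (ψ : ℂ → ℂ) (c₀ : ℂ) (r : ℝ) : Set ℝ :=
  {t | t ∈ Ioc 0 (2 * Real.pi) ∧ ∃ ζ ∈ ball c₀ r,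
    Tendsto (fun ρ : ℝ => ψ (ρ * exp (t * I))) (𝓝[>] 1) (𝓝 ζ)}

/-- The sharp laws at `c₀`, with `r = s ^ e`: Green's function on the disc of radius `r` and the
harmonic measure of this disc are `exp (-(A + o(1)) / s)`; and the modulus of continuity of a
continuous boundary map at a preimage of `c₀` is at least `((A - o(1)) / log (1 / δ)) ^ e`. -/
def Laws (c₀ : ℂ) (e : ℕ) (A : ℝ) : Prop :=
  ∀ ψ : ℂ → ℂ, IsExteriorMap (multibrotSet 2) ψ →
    Tendsto (fun s : ℝ => s * Real.log (1 / greenSup ψ c₀ (s ^ e))) (𝓝[>] 0) (𝓝 A) ∧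
    Tendsto (fun s : ℝ => s * Real.log (1 / (volume (angles ψ c₀ (s ^ e))).toReal)) (𝓝[>] 0)
      (𝓝 A) ∧
    ∀ F : ℂ → ℂ, ContinuousOn F {w | 1 ≤ ‖w‖} → (∀ w, 1 < ‖w‖ → F w = ψ w) →
      ∀ ζ : ℂ, ‖ζ‖ = 1 → F ζ = c₀ → ∀ κ : ℝ, 0 < κ → κ < A →
        ∀ᶠ δ : ℝ in 𝓝[>] 0, ∃ ξ : ℂ, ‖ξ‖ = 1 ∧ ‖ξ - ζ‖ ≤ δ ∧
          (κ / Real.log (1 / δ)) ^ e ≤ ‖F ξ - F ζ‖

/-- **The sharp laws at every parabolic parameter, with explicit constants.** Let `z₀` be a point of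
exact period `p` of `z ^ 2 + c₀` whose multiplier is a primitive `q`-th root of unity. Then the laws
hold with `e = 2` and `A = π p √(2 / |S β|) log 2` if `q = 1`, where `S` is the second derivative of
the `p`-th iterate at `z₀` and `β` its derivative with respect to the parameter; and with `e = 1` and
`A = 2 π p / (q |β|) log 2` if `q ≥ 2`, where `β` is the derivative at `c₀` of the multiplier of the
continuation of the periodic point. -/
theorem result (c₀ z₀ : ℂ) (p : ℕ) (hp : 1 ≤ p)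
    (hper : Function.minimalPeriod (f c₀) z₀ = p) :
    (deriv ((f c₀)^[p]) z₀ = 1 →
      ∃ S β : ℂ, S = deriv (deriv ((f c₀)^[p])) z₀ ∧ β = deriv (fun c => (f c)^[p] z₀) c₀ ∧
        S ≠ 0 ∧ β ≠ 0 ∧
        Laws c₀ 2 (Real.pi * p * √(2 / (‖S‖ * ‖β‖)) * Real.log 2)) ∧
    (∀ q : ℕ, 2 ≤ q → IsPrimitiveRoot (deriv ((f c₀)^[p]) z₀) q →
      ∃ (b : ℂ → ℂ) (β : ℂ), b c₀ = z₀ ∧
        (∀ᶠ c in 𝓝 c₀, DifferentiableAt ℂ b c ∧ (f c)^[p] (b c) = b c) ∧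
        HasDerivAt (fun c => deriv ((f c)^[p]) (b c)) β c₀ ∧ β ≠ 0 ∧
        Laws c₀ 1 (2 * Real.pi * p / (q * ‖β‖) * Real.log 2)) := by
  constructor
  · intro h1
    obtain ⟨hM, hS, hβ, hL, hlaw⟩ := Pool.Agent.Run7.h15.Tr.final_primitive (le_refl 2) hp hper h1
    refine ⟨_, _, rfl, rfl, hS, hβ, fun ψ hψ => ⟨?_, ?_, ?_⟩⟩
    · exact Pool.Agent.Run7.h15.Tr.sup_law (le_refl 2) (by norm_num) hL hlaw hM hψ
    · exact Pool.Agent.Run7.h15.Tr.vol_law (le_refl 2) (by norm_num) hL hlaw hM hψ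
    · intro F hF hE ζ hζ hFζ κ hκ0 hκ
      exact Pool.Agent.Run7.h15.Tr.loop_law (le_refl 2) (by norm_num) hL hlaw hM hψ hF hE hζ hFζ hκ0 hκ
  · intro q hq hprim
    obtain ⟨hM, b, hb0, hbd, hbz, β, hβ0, hβ, hL, hlaw⟩ :=
      Pool.Agent.Run7.h15.Tr.final_satellite (le_refl 2) hp hq hper hprim
    refine ⟨b, β, hb0, hbd.and hbz, hβ, hβ0, fun ψ hψ => ⟨?_, ?_, ?_⟩⟩
    · have h := Pool.Agent.Run7.h15.Tr.sup_law (le_refl 2) le_rfl hL hlaw hM hψ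
      exact h
    · have h := Pool.Agent.Run7.h15.Tr.vol_law (le_refl 2) le_rfl hL hlaw hM hψ
      exact h
    · intro F hF hE ζ hζ hFζ κ hκ0 hκ
      exact Pool.Agent.Run7.h15.Tr.loop_law (le_refl 2) le_rfl hL hlaw hM hψ hF hE hζ hFζ hκ0 hκ

end Pool.Agent.Results.MP_c6f924_an.ParabolicLaws
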